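import Mathlib
import Pool.Agent.W192.CY.Stneb
import Pool.Agent.W192.HK.Parts0

/-!
# Project WO (owner helper192): newforms of weight one, central values of twists by Dirichlet
characters of large order

`f ∈ S_1(Γ₁(N))` a newform with (odd) character `η`, i.e. an odd irreducible two-dimensional Artin
representation `ρ` of `ℚ`; `χ` primitive modulo `q`, `(q, N) = 1`, of order `≥ q ^ (3/4 + ε)`; some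
Galois conjugate of `χ` has `|L(ρ ⊗ χ ^ a, 1/2)| ≥ q ^ (-ε)`.  Same as `Pool.Agent.W192.CY.Stneb`
(weight `2m`) with weight one; the weight function is `V0 x = Γ(1/2, x) / Γ(1/2)` with the conditions
`VH` instead of `VW` (`Pool.Agent.W192.HK.Parts0`).
-/

set_option autoImplicit false

open Complex Filter Topology Set UpperHalfPlane MatrixGroups CongruenceSubgroup

namespace Pool.Agent.W192.WO

open Pool.Agent.W192.HK (VH V0)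
open Pool.Agent.W192.CY (cf NInv Em)

/-- newform of weight one, level `N`, character `η`; `w` is the eigenvalue of the Fricke involution:
`f(-1/(Nτ)) = w (√N τ / i) f^c(τ)`, `f^c(τ) = conj f(-conj τ)` -/
structure Newf1 (N : ℕ) (η : DirichletCharacter ℂ N)
    (f : CuspForm (Gamma1 N : Subgroup (GL (Fin 2) ℝ)) 1) (w : ℂ) : Prop where
  one : cf f 1 = 1
  mul : ∀ a b : ℕ, Nat.Coprime a b → cf f (a * b) = cf f a * cf f b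
  pow : ∀ p j : ℕ, p.Prime → cf f (p ^ (j + 2)) = cf f p * cf f (p ^ (j + 1)) -
    η (p : ZMod N) * cf f (p ^ j)
  conj : ∀ p : ℕ, p.Prime → ¬ p ∣ N → (starRingEnd ℂ) (cf f p) =
    (starRingEnd ℂ) (η (p : ZMod N)) * cf f p
  good : ∀ p : ℕ, p.Prime → ¬ p ∣ N → ‖cf f p‖ ≤ 2
  bad : ∀ p : ℕ, p.Prime → p ∣ N → ‖cf f p‖ ≤ 1
  neb : ∀ γ : SL(2, ℤ), γ ∈ Gamma0 N → ∀ τ : ℍ, f (γ • τ) = η ((γ 1 1 : ℤ) : ZMod N) *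
    (((γ 1 0 : ℤ) : ℂ) * (τ : ℂ) + ((γ 1 1 : ℤ) : ℂ)) * f τ
  norm : ‖w‖ = 1
  fricke : ∀ τ τ' τc : ℍ, (τ' : ℂ) * ((N : ℂ) * (τ : ℂ)) = -1 →
    (τc : ℂ) = -(starRingEnd ℂ) (τ : ℂ) →
    f τ' = w * (Real.sqrt N : ℂ) * ((τ : ℂ) / Complex.I) * (starRingEnd ℂ) (f τc)

/-- TWIST : the theta relation for the twist by a primitive character -/
def W_TWIST : Prop := ∀ (N : ℕ) [NeZero N] (η : DirichletCharacter ℂ N)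
  (f : CuspForm (Gamma1 N : Subgroup (GL (Fin 2) ℝ)) 1) (w : ℂ), Newf1 N η f w →
  ∀ (q : ℕ) [NeZero q] (χ : DirichletCharacter ℂ q), Nat.Coprime q N → χ.IsPrimitive →
  ∀ t : ℝ, 0 < t →
    ∑' n : ℕ, χ (n : ZMod q) * cf f n *
      (Real.exp (-(2 * Real.pi * n / (Real.sqrt N * q)) / t) : ℂ) =
    (w * η (q : ZMod N)) * χ (N : ZMod q) * gaussSum χ (ZMod.stdAddChar (N := q)) ^ 2 / q *
      (t : ℂ) * ∑' n : ℕ, (starRingEnd ℂ) (χ (n : ZMod q) * cf f n) *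
      (Real.exp (-(2 * Real.pi * n / (Real.sqrt N * q)) * t) : ℂ)

/-- AFE : the twisted L-function and its value at the centre `1/2` -/
def W_AFE : Prop := ∀ (N : ℕ) [NeZero N] (η : DirichletCharacter ℂ N)
  (f : CuspForm (Gamma1 N : Subgroup (GL (Fin 2) ℝ)) 1) (w : ℂ), Newf1 N η f w →
  ∀ (q : ℕ) [NeZero q] (χ : DirichletCharacter ℂ q), Nat.Coprime q N → χ.IsPrimitive →
  ∃ F : ℂ → ℂ, Differentiable ℂ F ∧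
    (∀ s : ℂ, 1 < s.re → F s = ∑' n : ℕ, χ (n : ZMod q) * cf f n * (n : ℂ) ^ (-s)) ∧
    ∀ X Y : ℝ, 0 < X → 0 < Y → X * Y = N * (q : ℝ) ^ 2 / (4 * Real.pi ^ 2) →
      F (1 / 2) =
        ∑' n : ℕ, χ (n : ZMod q) * (cf f n * (Real.sqrt n : ℂ)) / n * (V0 (n / X) : ℂ) +
        (w * η (q : ZMod N)) * χ (N : ZMod q) *
            gaussSum χ (ZMod.stdAddChar (N := q)) ^ 2 / q *
          ∑' n : ℕ, (starRingEnd ℂ) (χ (n : ZMod q)) *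
            (starRingEnd ℂ) (cf f n * (Real.sqrt n : ℂ)) / n * (V0 (n / Y) : ℂ)

/-- EUL : the Euler product -/
def W_EUL : Prop := ∀ (N : ℕ) [NeZero N] (η : DirichletCharacter ℂ N)
  (f : CuspForm (Gamma1 N : Subgroup (GL (Fin 2) ℝ)) 1) (w : ℂ), Newf1 N η f w →
  ∀ (q : ℕ) (χ : DirichletCharacter ℂ q), ∀ s : ℂ, 1 < s.re →
    Summable (fun n : ℕ => ‖χ (n : ZMod q) * cf f n * (n : ℂ) ^ (-s)‖) ∧
    HasProd (fun p : Nat.Primes => (1 - χ ((p : ℕ) : ZMod q) * cf f p * ((p : ℕ) : ℂ) ^ (-s) +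
      χ ((p : ℕ) : ZMod q) ^ 2 * η ((p : ℕ) : ZMod N) *
        ((p : ℕ) : ℂ) ^ (-2 * s))⁻¹)
      (∑' n : ℕ, χ (n : ZMod q) * cf f n * (n : ℂ) ^ (-s))

/-- COEF -/
def W_COEF : Prop := ∀ (N : ℕ) [NeZero N] (η : DirichletCharacter ℂ N)
  (f : CuspForm (Gamma1 N : Subgroup (GL (Fin 2) ℝ)) 1) (w : ℂ), Newf1 N η f w →
  ∃ μ : ℕ → ℂ, NInv (fun n => cf f n * (Real.sqrt n : ℂ)) μ

/-- MAINP -/
def W_MAINP : Prop := ∀ (V : ℝ → ℝ) (CV : ℝ), VH V CV → ∀ (c m : ℕ → ℂ), c 1 = 1 → NInv c m →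
  ∀ ε : ℝ, 0 < ε → ε < 1 / 4 →
  ∃ δ C q0 : ℝ, 0 < δ ∧ 0 < C ∧ ∀ (q : ℕ) [NeZero q], q0 ≤ q → ∀ χ₀ : DirichletCharacter ℂ q,
  (q : ℝ) ^ (3 / 4 + ε) ≤ orderOf χ₀ → ∀ M : ℕ, 1 ≤ M → M ∣ orderOf χ₀ →
  ‖∑ b ∈ Finset.Icc 1 ⌊(q : ℝ) ^ (ε / 2)⌋₊, (m b / b) * ∑ χ ∈ Em q χ₀ M,
      χ (b : ZMod q) * (∑' n : ℕ, χ (n : ZMod q) * c n / n *
        (V (n / ((q : ℝ) ^ (3 / 2 : ℝ) / 2)) : ℂ)) - ((Em q χ₀ M).card : ℂ)‖ ≤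
    C * orderOf χ₀ * (q : ℝ) ^ (-δ)

/-- DUALP -/
def W_DUALP : Prop := ∀ (V : ℝ → ℝ) (CV : ℝ), VH V CV → ∀ (N : ℕ), 1 ≤ N → ∀ (c m : ℕ → ℂ),
  NInv c m → ∀ ε : ℝ, 0 < ε → ε < 1 / 4 →
  ∃ δ C q0 : ℝ, 0 < δ ∧ 0 < C ∧ ∀ (q : ℕ) [NeZero q], q0 ≤ q → Nat.Coprime q N →
  ∀ χ₀ : DirichletCharacter ℂ q, (q : ℝ) ^ (3 / 4 + ε) ≤ orderOf χ₀ → ∀ M : ℕ, 1 ≤ M →
  M ∣ orderOf χ₀ →
  ‖∑ b ∈ Finset.Icc 1 ⌊(q : ℝ) ^ (ε / 2)⌋₊, (m b / b) * ∑ χ ∈ Em q χ₀ M,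
      χ (b : ZMod q) * (χ (N : ZMod q) * gaussSum χ (ZMod.stdAddChar (N := q)) ^ 2 / q *
        ∑' n : ℕ, (starRingEnd ℂ) (χ (n : ZMod q)) * (starRingEnd ℂ) (c n) / n *
        (V (n / (N * Real.sqrt q / (2 * Real.pi ^ 2))) : ℂ))‖ ≤
    C * orderOf χ₀ * (q : ℝ) ^ (-δ)

/-- FINN (`w` may depend on `q`) -/
def W_FINN : Prop := ∀ (V : ℝ → ℝ) (CV : ℝ), VH V CV → ∀ (N : ℕ), 1 ≤ N → ∀ (c μ : ℕ → ℂ),
  c 1 = 1 → NInv c μ → ∀ M : ℕ, 1 ≤ M →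
  ∀ ε : ℝ, 0 < ε → ∃ q0 : ℝ, ∀ (q : ℕ) [NeZero q], q0 ≤ q → Nat.Coprime q N →
  ∀ w : ℂ, ‖w‖ = 1 → ∀ L : DirichletCharacter ℂ q → ℂ,
    (∀ χ : DirichletCharacter ℂ q, χ.IsPrimitive → ∀ X Y : ℝ, 0 < X → 0 < Y →
      X * Y = N * (q : ℝ) ^ 2 / (4 * Real.pi ^ 2) →
      L χ = ∑' n : ℕ, χ (n : ZMod q) * c n / n * (V (n / X) : ℂ) +
        w * χ (N : ZMod q) * gaussSum χ (ZMod.stdAddChar (N := q)) ^ 2 / q *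
          ∑' n : ℕ, (starRingEnd ℂ) (χ (n : ZMod q)) * (starRingEnd ℂ) (c n) / n *
          (V (n / Y) : ℂ)) →
    ∀ χ₀ : DirichletCharacter ℂ q, χ₀.IsPrimitive → (q : ℝ) ^ (3 / 4 + ε) ≤ orderOf χ₀ →
      ∃ a : ℕ, Nat.Coprime a (orderOf χ₀) ∧ a % M = 1 % M ∧ (χ₀ ^ a).IsPrimitive ∧
        (q : ℝ) ^ (-ε) ≤ ‖L (χ₀ ^ a)‖

end Pool.Agent.W192.WO
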